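import Pool.Agent.H.MP_b6d12e_lc.A

set_option autoImplicit false

namespace Pool.Agent.Results.MP_2b9a36_lc.No

open Encodable Function Pool.Agent.H.MP_b6d12e_lc

/-- enumeration reducibility; finite sets are given by lists -/
def ERed (A B : Set ℕ) : Prop := ∃ Φ : ℕ × List ℕ → Prop, REPred Φ ∧
  ∀ n, n ∈ A ↔ ∃ l, Φ (n, l) ∧ ∀ e ∈ l, e ∈ B

def join (A B : Set ℕ) : Set ℕ := {n | n % 2 = 0 ∧ n / 2 ∈ A ∨ n % 2 = 1 ∧ n / 2 ∈ B}

/-- `A 0 ⊕ A 1 ⊕ … ⊕ A n` -/
def joinN (A : ℕ → Set ℕ) : ℕ → Set ℕ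
  | 0 => A 0
  | n + 1 => join (joinN A n) (A (n + 1))

def Graph (g : ℕ → ℕ) : Set ℕ := {k | ∃ n, k = Nat.pair n (g n)}

def CGraph (g : ℕ → ℕ) : Set ℕ := {k | ∃ n, k = encode ((List.range n).map g)}

def TGraph (b : ℕ) (g : ℕ → ℕ) : Set ℕ := {k | ∃ n, k = Nat.pair n (g n) ∧ b ≤ g n}

/-- position of the element `s` of the `i`-th summand -/
def cd : ℕ → ℕ → ℕ → ℕ
  | 0, _, s => s
  | n + 1, i, s => if i = n + 1 then 2 * s + 1 else 2 * cd n i s

theorem cd_mem (A : ℕ → Set ℕ) : ∀ n i s, i ≤ n → (cd n i s ∈ joinN A n ↔ s ∈ A i)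
  | 0, i, s, h => by obtain rfl : i = 0 := by omega
                     rfl
  | n + 1, i, s, h => by
    simp only [cd, joinN, join, Set.mem_ofPred_eq]
    split_ifs with k
    · rw [k, show (2 * s + 1) / 2 = s by omega, show (2 * s + 1) % 2 = 1 by omega]; simp
    · rw [show 2 * cd n i s / 2 = cd n i s by omega, show 2 * cd n i s % 2 = 0 by omega,
        cd_mem A n i s (by omega)]; simp

theorem cd_surj : ∀ n x, ∃ i ≤ n, ∃ s, x = cd n i s
  | 0, x => ⟨0, le_rfl, x, rfl⟩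
  | n + 1, x => by
    by_cases h : x % 2 = 1
    · exact ⟨n + 1, le_rfl, x / 2, by simp only [cd, if_true]; omega⟩
    · obtain ⟨i, a, s, b⟩ := cd_surj n (x / 2)
      exact ⟨i, by omega, s, by simp only [cd, if_neg (show i ≠ n + 1 by omega)]; omega⟩

def Nb (g : ℕ → ℕ) : Set ℕ := join (Graph g)ᶜ (TGraph 2 g)

def op (Φ : ℕ × List ℕ → Prop) (g : ℕ → ℕ) (n : ℕ) : Prop := ∃ l, Φ (n, l) ∧ ∀ e ∈ l, e ∈ Nb g

def near (M : ℕ) (g h : ℕ → ℕ) : Prop := ∀ c < M, h c = g c ∨ g c ≤ 1 ∧ M ≤ h c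

theorem unif {α : Type} {P : ℕ → α → Prop} (hP : ∀ a M M', M ≤ M' → P M a → P M' a) (l : List α)
    (h : ∀ a ∈ l, ∃ M, P M a) : ∃ M, ∀ a ∈ l, P M a := by
  choose! M hM using h
  exact ⟨(l.map M).sum, fun a ha => hP a _ _
    (List.single_le_sum (by simp) _ (List.mem_map_of_mem ha)) (hM a ha)⟩

theorem near.mono {M M' : ℕ} {g h : ℕ → ℕ} (k : near M' g h) (a : M ≤ M') : near M g h :=
  fun c b => (k c (by omega)).imp_right fun d => ⟨d.1, by omega⟩

theorem nb_near {g : ℕ → ℕ} {e : ℕ} (h : e ∈ Nb g) : ∃ M, ∀ z, near M g z → e ∈ Nb z := by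
  refine ⟨e / 2 + 1, fun z k => h.imp (And.imp_right fun a ⟨n, b⟩ => a ⟨n, ?_⟩)
    (And.imp_right fun ⟨n, a, b⟩ => ?_)⟩
  · have := Nat.left_le_pair n (z n)
    have := Nat.right_le_pair n (z n)
    rw [b, (k n (by omega)).resolve_right (by omega)]
  · have := Nat.left_le_pair n (g n)
    have := (k n (by omega)).resolve_right (by omega)
    exact ⟨n, this ▸ a, this ▸ b⟩

theorem op_near {Φ : ℕ × List ℕ → Prop} {g : ℕ → ℕ} {x : ℕ} (h : op Φ g x) :
    ∃ M, ∀ z, near M g z → op Φ z x := by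
  obtain ⟨l, a, b⟩ := h
  obtain ⟨M, c⟩ := unif (P := fun M e => ∀ z, near M g z → e ∈ Nb z)
    (fun _ _ _ a b z c => b z (c.mono a)) l fun e he => nb_near (b e he)
  exact ⟨M, fun z d => ⟨l, a, fun e he => c e he z d⟩⟩

theorem nb_zero {g : ℕ → ℕ} {a : ℕ} : 2 * Nat.pair a 0 ∈ Nb g ↔ g a ≠ 0 := by
  simp only [Nb, join, Graph, Set.mem_ofPred_eq, Set.mem_compl_iff, Nat.mul_mod_right,
    Nat.mul_div_cancel_left _ two_pos, Nat.pair_eq_pair]
  constructor
  · rintro (h | h)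
    · exact fun e => h.2 ⟨a, rfl, e.symm⟩
    · omega
  · exact fun h => .inl ⟨trivial, fun ⟨n, b, c⟩ => h (b ▸ c.symm)⟩

theorem cg_down {f f' : ℕ → ℕ} {k k' : ℕ} (a : k' ≤ k) (h : encode ((List.range k).map f) ∈ CGraph f') :
    encode ((List.range k').map f) ∈ CGraph f' := by
  obtain ⟨n, h⟩ := h
  have h := encode_injective h
  obtain rfl : k = n := by simpa using congrArg List.length h
  rw [List.map_inj_left] at h
  exact ⟨k', congrArg _ (List.map_inj_left.2 fun i hi => h i (by simp at hi ⊢; omega))⟩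

def D (Φ Ψ : ℕ × List ℕ → Prop) (n : ℕ) (g : ℕ → ℕ) : Prop := ∃ f : ℕ → ℕ → ℕ,
  (∀ x, x ∈ joinN (fun i => (CGraph (f i))ᶜ) n ↔ op Φ g x) ∧
    ∀ x, x ∈ Nb g ↔ ∃ l, Ψ (x, l) ∧ ∀ e ∈ l, e ∈ joinN (fun i => (CGraph (f i))ᶜ) n

theorem nwd (Φ Ψ : ℕ × List ℕ → Prop) (n : ℕ) (v : ℕ → ℕ) (m : ℕ) :
    ∃ w M, Ag m v w ∧ ∀ z, Ag M w z → ¬ D Φ Ψ n z := by
  by_contra! hd
  let b : ℕ → ℕ := fun c => if c < m then v c else 0
  have h1 : ∀ j ≤ n + 2, ∃ t M, m + n + 2 ≤ M ∧ Ag (m + n + 2) b t ∧ ∀ j' < j, ∃ F,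
      Ψ (2 * Nat.pair (m + j') 0, F) ∧ ∀ g, Ag M t g → ∀ x ∈ F, op Φ (update g (m + j') 1) x := by
    intro j
    induction j with
    | zero => exact fun _ => ⟨b, _, le_rfl, fun _ _ => rfl, by simp⟩
    | succ j ih =>
      intro hj
      obtain ⟨t, M, a1, a2, a3⟩ := ih (by omega)
      obtain ⟨p, p1, f, p2, p3⟩ := hd (update t (m + j) 1) M fun c hc => by
        rw [update_of_ne (by omega), a2 c (by omega)]; exact if_pos hc
      obtain ⟨F, F1, F2⟩ := (p3 (2 * Nat.pair (m + j) 0)).1 (nb_zero.2 (by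
        rw [p1 _ (by omega)]; simp))
      obtain ⟨M', hM⟩ := unif (P := fun M x => ∀ z, near M p z → op Φ z x)
        (fun _ _ _ a b z c => b z (c.mono a)) F fun x hx => op_near ((p2 x).1 (F2 x hx))
      have e : Ag M t (update p (m + j) 0) := fun c hc => by
        by_cases k : c = m + j
        · rw [k, update_self, a2 _ (by omega)]; exact (if_neg (by omega)).symm
        · rw [update_of_ne k, p1 c hc, update_of_ne k]
      refine ⟨update p (m + j) 0, max M M', by omega, fun c hc => (e c (by omega)).trans (a2 c hc),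
        fun j' hj' => ?_⟩
      by_cases k : j' = j
      · rw [k]
        refine ⟨F, F1, fun g hg x hx => hM x hx _ fun c hc => .inl ?_⟩
        by_cases k : c = m + j
        · rw [k, update_self, p1 _ (by omega), update_self]
        · rw [update_of_ne k, hg c (by omega), update_of_ne k]
      · exact (a3 j' (by omega)).imp fun F q => ⟨q.1, fun g hg => q.2 g fun c hc =>
          (hg c (by omega)).trans (e c hc)⟩
  obtain ⟨t, M, a1, a2, a3⟩ := h1 _ le_rfl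
  have hv : ∀ g, Ag M t g → Ag m v g := fun g hg c hc =>
    (hg c (by omega)).trans ((a2 c (by omega)).trans (if_pos hc))
  obtain ⟨g, g1, f, g2, -⟩ := hd t M (hv t fun _ _ => rfl)
  have g0 : ∀ j < n + 2, g (m + j) = 0 := fun j hj =>
    (g1 _ (by omega)).trans ((a2 _ (by omega)).trans (if_neg (by omega)))
  let S : ℕ → ℕ → ℕ → Prop := fun j i k =>
    op Φ (update g (m + j) 1) (cd n i (encode ((List.range k).map (f i))))
  obtain ⟨j, hj, h2⟩ : ∃ j < n + 2, ∀ i ≤ n, ∀ k, S j i k → ∃ j' < n + 2, j' ≠ j ∧ ∃ k' ≤ k, S j' i k' := by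
    by_contra! c
    choose! i i1 k k1 k2 using c
    obtain ⟨j, hj, j', hj', e1, e2⟩ := Finset.exists_ne_map_eq_of_card_lt_of_maps_to
      (s := Finset.range (n + 2)) (t := Finset.range (n + 1)) (f := i) (by simp)
      fun j hj => by simpa [Nat.lt_succ_iff] using i1 j (by simpa using hj)
    rw [Finset.mem_range] at hj hj'
    rcases le_total (k j) (k j') with a | a
    · exact k2 j' hj' j hj e1 _ a (e2 ▸ k1 j hj)
    · exact k2 j hj j' hj' e1.symm _ a (e2 ▸ k1 j' hj')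
  obtain ⟨F, F1, F2⟩ := a3 j hj
  let W : ℕ → (ℕ → ℕ) → Prop := fun N h => ∀ c < N,
    if m ≤ c ∧ c < m + n + 2 ∧ c ≠ m + j then N ≤ h c else h c = g c
  obtain ⟨N, hN⟩ := unif (P := fun N x => ∀ h, W N h → D Φ Ψ n h → op Φ h x) (fun _ N N' a b h c =>
      b h fun d e => by have := c d (by omega); split_ifs at this ⊢ <;> omega) F fun x hx => by
    by_cases c : op Φ g x
    · refine (op_near c).imp fun N q h a _ => q h fun c hc => ?_
      have := a c hc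
      split_ifs at this with d
      · exact .inr ⟨by have := g0 (c - m) (by omega); rw [show m + (c - m) = c by omega] at this; omega, this⟩
      · exact .inl this
    obtain ⟨i, hi, s, rfl⟩ := cd_surj n x
    rw [← g2, cd_mem _ _ _ _ hi] at c
    obtain ⟨k, rfl⟩ := not_not.1 c
    obtain ⟨j', a, a', k', d, e⟩ := h2 i hi k (F2 g g1 _ hx)
    refine (op_near e).imp fun N q h u ⟨f', f1, _⟩ => ?_
    rw [← f1, cd_mem _ _ _ _ hi]
    refine fun r => (cd_mem (fun i => (CGraph (f' i))ᶜ) _ _ _ hi).1 ((f1 _).2 (q h fun c hc => ?_)) (cg_down d r)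
    have := u c hc
    by_cases k : c = m + j'
    · rw [if_pos (by omega)] at this
      exact .inr ⟨by rw [k, update_self], this⟩
    rw [update_of_ne k]
    split_ifs at this with d
    · exact .inr ⟨by have := g0 (c - m) (by omega); rw [show m + (c - m) = c by omega] at this; omega, this⟩
    · exact .inl this
  obtain ⟨h, h3, h4⟩ := hd (fun c => if m ≤ c ∧ c < m + n + 2 ∧ c ≠ m + j then N else g c) (N + M)
    fun c hc => (if_neg (by omega)).trans (hv g g1 c hc)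
  have h5 := fun x hx => hN x hx h (fun c hc => by
    have := h3 c (by omega); beta_reduce at this; split_ifs at this ⊢ <;> omega) h4
  obtain ⟨f', f1, f2⟩ := h4
  exact nb_zero.1 ((f2 _).2 ⟨F, F1, fun e he => (f1 e).2 (h5 e he)⟩)
    ((h3 _ (by omega)).trans ((if_neg (by omega)).trans (g0 j hj)))

theorem result : ∃ g : ℕ → ℕ, ∀ (n : ℕ) (f : ℕ → ℕ → ℕ),
    ¬ (ERed (join (Graph g)ᶜ (TGraph 2 g)) (joinN (fun i => (CGraph (f i))ᶜ) n) ∧
      ERed (joinN (fun i => (CGraph (f i))ᶜ) n) (join (Graph g)ᶜ (TGraph 2 g))) := by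
  have := @Pool.Agent.H.MP_4f977f_lc.cnt_re (ℕ × List ℕ) _
  obtain ⟨g, h⟩ := baire (ι := {W : ℕ × List ℕ → Prop // REPred W} × {W : ℕ × List ℕ → Prop // REPred W} × ℕ)
    (fun i z => ¬ D i.1.1 i.2.1.1 i.2.2 z) fun i => nwd _ _ _
  exact ⟨g, fun n f ⟨⟨Ψ, a, b⟩, Φ, c, d⟩ => h (⟨Φ, c⟩, ⟨Ψ, a⟩, n) ⟨f, d, b⟩⟩

end Pool.Agent.Results.MP_2b9a36_lc.No
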